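import Pool.Agent.Lib.MP_ff2384_gt.Base
import Pool.Agent.Lib.MP_ff2384_gt.Final

open Pool.Agent.ZM

/-- **Negative answer to Q1.** There is a sequence of locally compact z-minimal groups whose
product is not z-minimal. -/
theorem Pool.Agent.Results.MP_ff2384_gt.ProductNotZMinimal.result :
    ∃ (G : ℕ → Type) (_ : ∀ i, Group (G i)) (_ : ∀ i, TopologicalSpace (G i)),
      (∀ i, LocallyCompactSpace (G i)) ∧ (∀ i, IsZMin (G i)) ∧ ¬ IsZMin (∀ i, G i) :=
  Pool.Agent.ZM.main
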